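import Pool.Agent.W2helper75.FD.Stm3
import Pool.Agent.W2helper82.FD.Nret

/-!
# Project FD, part 3, piece FIN3: the walk is finally outside of the window
-/

set_option autoImplicit false

open MeasureTheory ProbabilityTheory Filter Topology
open scoped ENNReal NNReal

namespace Pool.Agent.W2helper24.FD

open Pool.Agent.W2helper75.FD Pool.Agent.W2helper82.FD Pool.Agent.W2helper19.FD

section

variable {Γ : Type} [Group Γ]

/-- the walk from `g` is in `A` at some time at least `k` -/
def V (S : Finset Γ) (A : Set Γ) (k : ℕ) (g : Γ) : Set (ℕ → S) :=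
  {c | ∃ n, k ≤ n ∧ g * pos c n ∈ A}

/-- the walk from `g` is in `A` at some time at most `N` -/
def U (S : Finset Γ) (A : Set Γ) (N : ℕ) (g : Γ) : Set (ℕ → S) :=
  {c | ∃ n, n ≤ N ∧ g * pos c n ∈ A}

variable {S : Finset Γ} [Nonempty S] [MeasurableSpace S] [DiscreteMeasurableSpace S]

omit [Nonempty S] in
lemma meas_V (A : Set Γ) (k : ℕ) (g : Γ) : MeasurableSet (V S A k g) := by
  have e : V S A k g = ⋃ n, ⋃ _ : k ≤ n, {c : ℕ → S | g * pos c n ∈ A} := by
    ext c
    simp only [V, Set.mem_ofPred_eq, Set.mem_iUnion, exists_prop]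
  rw [e]
  exact MeasurableSet.iUnion fun n => MeasurableSet.iUnion fun _ => meas_mul_pos g n _

omit [Nonempty S] in
lemma meas_U (A : Set Γ) (k : ℕ) (g : Γ) : MeasurableSet (U S A k g) := by
  have e : U S A k g = ⋃ n, ⋃ _ : n ≤ k, {c : ℕ → S | g * pos c n ∈ A} := by
    ext c
    simp only [U, Set.mem_ofPred_eq, Set.mem_iUnion, exists_prop]
  rw [e]
  exact MeasurableSet.iUnion fun n => MeasurableSet.iUnion fun _ => meas_mul_pos g n _

lemma V_succ (A : Set Γ) (k : ℕ) (g : Γ) :
    mlaw S (V S A (k + 1) g) =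
      (Fintype.card S : ℝ≥0∞)⁻¹ * ∑ s : S, mlaw S (V S A k (g * s)) := by
  rw [split _ (meas_V A (k + 1) g)]
  congr 1
  refine Finset.sum_congr rfl fun s _ => ?_
  congr 1
  ext c
  simp only [V, Set.mem_ofPred_eq]
  constructor
  · rintro ⟨n, hn, hc⟩
    obtain ⟨m, rfl⟩ : ∃ m, n = m + 1 := ⟨n - 1, by omega⟩
    rw [pos_cns, ← mul_assoc] at hc
    exact ⟨m, by omega, hc⟩
  · rintro ⟨n, hn, hc⟩
    refine ⟨n + 1, by omega, ?_⟩
    rw [pos_cns, ← mul_assoc]
    exact hc

lemma V_zero_ge (A : Set Γ) (g : Γ) :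
    (Fintype.card S : ℝ≥0∞)⁻¹ * ∑ s : S, mlaw S (V S A 0 (g * s)) ≤ mlaw S (V S A 0 g) := by
  rw [← V_succ A 0 g]
  refine measure_mono ?_
  rintro c ⟨n, _, hc⟩
  exact ⟨n, Nat.zero_le _, hc⟩

lemma U_le (A G : Set Γ) (hAG : ∀ g ∈ A, 1 ≤ 2 * mlaw S (V S G 0 g)) (N : ℕ) :
    ∀ g : Γ, mlaw S (U S A N g) ≤ 2 * mlaw S (V S G 0 g) := by
  induction N with
  | zero =>
    intro g
    by_cases hg : g ∈ A
    · exact prob_le_one.trans (hAG g hg)
    · have e : U S A 0 g = ∅ := by
        ext c
        simp only [U, Set.mem_ofPred_eq, Set.mem_empty_iff_false, iff_false]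
        rintro ⟨n, hn, hc⟩
        have : n = 0 := by omega
        rw [this, pos_zero, mul_one] at hc
        exact hg hc
      rw [e, measure_empty]
      exact zero_le
  | succ N ih =>
    intro g
    by_cases hg : g ∈ A
    · exact prob_le_one.trans (hAG g hg)
    · have e : mlaw S (U S A (N + 1) g) =
          (Fintype.card S : ℝ≥0∞)⁻¹ * ∑ s : S, mlaw S (U S A N (g * s)) := by
        rw [split _ (meas_U A (N + 1) g)]
        congr 1
        refine Finset.sum_congr rfl fun s _ => ?_
        congr 1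
        ext c
        simp only [U, Set.mem_ofPred_eq]
        constructor
        · rintro ⟨n, hn, hc⟩
          cases n with
          | zero =>
            rw [pos_zero, mul_one] at hc
            exact absurd hc hg
          | succ m =>
            rw [pos_cns, ← mul_assoc] at hc
            exact ⟨m, by omega, hc⟩
        · rintro ⟨n, hn, hc⟩
          refine ⟨n + 1, by omega, ?_⟩
          rw [pos_cns, ← mul_assoc]
          exact hc
      rw [e]
      calc (Fintype.card S : ℝ≥0∞)⁻¹ * ∑ s : S, mlaw S (U S A N (g * s))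
          ≤ (Fintype.card S : ℝ≥0∞)⁻¹ * ∑ s : S, 2 * mlaw S (V S G 0 (g * s)) :=
            mul_le_mul_right (Finset.sum_le_sum fun s _ => ih _) _
        _ = 2 * ((Fintype.card S : ℝ≥0∞)⁻¹ * ∑ s : S, mlaw S (V S G 0 (g * s))) := by
            rw [← Finset.mul_sum]
            ring
        _ ≤ 2 * mlaw S (V S G 0 g) := mul_le_mul_right (V_zero_ge G g) _

lemma V_le (A G : Set Γ) (hAG : ∀ g ∈ A, 1 ≤ 2 * mlaw S (V S G 0 g)) (k : ℕ) :
    ∀ g : Γ, mlaw S (V S A k g) ≤ 2 * mlaw S (V S G k g) := by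
  induction k with
  | zero =>
    intro g
    have e : V S A 0 g = ⋃ N, U S A N g := by
      ext c
      simp only [V, U, Set.mem_ofPred_eq, Set.mem_iUnion]
      constructor
      · rintro ⟨n, _, hc⟩
        exact ⟨n, n, le_rfl, hc⟩
      · rintro ⟨_, n, _, hc⟩
        exact ⟨n, Nat.zero_le _, hc⟩
    have hmono : Monotone fun N => U S A N g := by
      intro N N' hN c hc
      obtain ⟨n, hn, hc⟩ := hc
      exact ⟨n, hn.trans hN, hc⟩
    rw [e, hmono.measure_iUnion]
    exact iSup_le fun N => U_le A G hAG N g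
  | succ k ih =>
    intro g
    rw [V_succ, V_succ]
    calc (Fintype.card S : ℝ≥0∞)⁻¹ * ∑ s : S, mlaw S (V S A k (g * s))
        ≤ (Fintype.card S : ℝ≥0∞)⁻¹ * ∑ s : S, 2 * mlaw S (V S G k (g * s)) :=
          mul_le_mul_right (Finset.sum_le_sum fun s _ => ih _) _
      _ = 2 * ((Fintype.card S : ℝ≥0∞)⁻¹ * ∑ s : S, mlaw S (V S G k (g * s))) := by
          rw [← Finset.mul_sum]
          ring

omit [Nonempty S] in
/-- functions of the position are measurable -/
lemma measurable_pos (g : Γ) (n : ℕ) (f : Γ → ℝ≥0∞) :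
    Measurable fun c : ℕ → S => f (g * pos c n) := by
  intro B _
  exact meas_mul_pos g n (f ⁻¹' B)

end

theorem fin3 : P_FIN3 := by
  intro Γ _ S _ _ _ H h b θ D t hS hsum hosc hwin R ε hε
  classical
  obtain ⟨C, hC0, hC⟩ := hsum
  have hθ0 := hS.θ0
  have hθ1 := hS.θ1
  set C₁ : ℝ := C + 1 with hC₁
  have hC₁pos : 0 < C₁ := by linarith
  set R' : ℝ := R + D * (2 * C₁) with hR'
  set G : Set Γ := {x | 0 ≤ h x ∧ h x < (D : ℤ) ∧ b x ≤ R'} with hG
  have hD1 : (1 : ℤ) ≤ D := by exact_mod_cast hS.D1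
  -- descents
  have hkey : ∀ x ∈ MW H h b R, 1 ≤ 2 * mlaw S (V S G 0 x) := by
    rintro x ⟨_, hx0, hxR⟩
    let f : ℕ → (ℕ → S) → ℝ≥0∞ := fun k c => if ∀ j ≤ k, (D : ℤ) ≤ h (x * pos c j) then
      ENNReal.ofReal (θ ^ h (x * pos c k)) else 0
    have hfm : ∀ k, Measurable (f k) := by
      intro k
      refine Measurable.ite ?_ (measurable_pos x k fun y => ENNReal.ofReal (θ ^ h y))
        measurable_const
      have e : {c : ℕ → S | ∀ j ≤ k, (D : ℤ) ≤ h (x * pos c j)} =
          ⋂ j, ⋂ _ : j ≤ k, {c : ℕ → S | x * pos c j ∈ {y | (D : ℤ) ≤ h y}} := by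
        ext c
        simp only [Set.mem_ofPred_eq, Set.mem_iInter]
      rw [e]
      exact MeasurableSet.iInter fun j => MeasurableSet.iInter fun _ => meas_mul_pos x j _
    have hFm : Measurable fun c => ∑' k, f k c := Measurable.tsum hfm
    have hint : ∫⁻ c, ∑' k, f k c ∂(mlaw S) ≤ ENNReal.ofReal C₁ := by
      have h1 := hC x (D : ℤ)
      refine le_trans (le_of_eq ?_) (h1.trans (ENNReal.ofReal_le_ofReal ?_))
      · refine lintegral_congr fun c => tsum_congr fun k => ?_
        rfl
      · rw [zpow_natCast]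
        have : θ ^ D ≤ 1 := pow_le_one₀ hθ0.le hθ1.le
        nlinarith
    have hmark : mlaw S {c | ENNReal.ofReal (2 * C₁) ≤ ∑' k, f k c} ≤ 2⁻¹ := by
      have h2 : ENNReal.ofReal (2 * C₁) ≠ 0 := by
        rw [Ne, ENNReal.ofReal_eq_zero, not_le]
        positivity
      refine (meas_ge_le_lintegral_div hFm.aemeasurable h2 ENNReal.ofReal_ne_top).trans ?_
      refine ENNReal.div_le_of_le_mul (hint.trans (le_of_eq ?_))
      rw [ENNReal.ofReal_mul (by norm_num), ← mul_assoc]
      have : (2 : ℝ≥0∞)⁻¹ * ENNReal.ofReal 2 = 1 := by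
        rw [ENNReal.ofReal_ofNat]
        exact ENNReal.inv_mul_cancel (by norm_num) (by norm_num)
      rw [this, one_mul]
    have hoscm : MeasurableSet {c : ℕ → S | ∃ n, h (x * pos c n) ≤ -0} := by
      have e : {c : ℕ → S | ∃ n, h (x * pos c n) ≤ -0} =
          ⋃ n, {c : ℕ → S | x * pos c n ∈ {y | h y ≤ -0}} := by
        ext c
        simp only [Set.mem_ofPred_eq, Set.mem_iUnion]
      rw [e]
      exact MeasurableSet.iUnion fun n => meas_mul_pos x n _
    have hosc0 : mlaw S {c : ℕ → S | ∃ n, h (x * pos c n) ≤ -0}ᶜ = 0 :=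
      (prob_compl_eq_zero_iff hoscm).2 (hosc x 0)
    have hcov : (Set.univ : Set (ℕ → S)) ⊆ (V S G 0 x ∪
        {c | ENNReal.ofReal (2 * C₁) ≤ ∑' k, f k c}) ∪
          {c : ℕ → S | ∃ n, h (x * pos c n) ≤ -0}ᶜ := by
      intro c _
      by_cases h1 : ∃ n, h (x * pos c n) ≤ -0
      · by_cases h2 : ENNReal.ofReal (2 * C₁) ≤ ∑' k, f k c
        · exact Or.inl (Or.inr h2)
        · refine Or.inl (Or.inl ?_)
          have h3 : ∃ n, h (x * pos c n) < (D : ℤ) := by
            obtain ⟨n, hn⟩ := h1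
            exact ⟨n, by omega⟩
          have hT := Nat.find_spec h3
          have hmin : ∀ k, k < Nat.find h3 → (D : ℤ) ≤ h (x * pos c k) :=
            fun k hk => not_lt.1 (Nat.find_min h3 hk)
          set T := Nat.find h3 with hTdef
          refine ⟨T, Nat.zero_le _, ?_, hT, ?_⟩
          · cases hT0 : T with
            | zero => rw [pos_zero, mul_one]; exact hx0
            | succ m =>
              have h4 := hmin m (by omega)
              have h5 := hS.h_step (x * pos c m) (c m) (c m).2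
              rw [pos_succ, ← mul_assoc]
              have h6 := (abs_le.1 h5).1
              omega
          · -- the displacement
            have h4 : ∀ m ≤ T, b (x * pos c m) ≤
                R + D * ∑ k ∈ Finset.range m, θ ^ h (x * pos c k) := by
              intro m
              induction m with
              | zero =>
                intro _
                rw [pos_zero, mul_one]
                simpa using hxR
              | succ m ih =>
                intro hm
                have h5 := ih (by omega)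
                have h6 := hS.b_step (x * pos c m) (c m) (c m).2
                rw [pos_succ, ← mul_assoc, Finset.sum_range_succ, mul_add]
                linarith
            have h5 : ENNReal.ofReal (∑ k ∈ Finset.range T, θ ^ h (x * pos c k)) ≤
                ∑' k, f k c := by
              rw [ENNReal.ofReal_sum_of_nonneg (fun k _ => (zpow_pos hθ0 _).le)]
              refine le_trans (Finset.sum_le_sum fun k hk => ?_)
                (ENNReal.sum_le_tsum (Finset.range T))
              have hk' := Finset.mem_range.1 hk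
              have h6 : ∀ j ≤ k, (D : ℤ) ≤ h (x * pos c j) := fun j hj => hmin j (by omega)
              change _ ≤ if ∀ j ≤ k, (D : ℤ) ≤ h (x * pos c j) then
                ENNReal.ofReal (θ ^ h (x * pos c k)) else 0
              rw [if_pos h6]
            have h6 : ∑ k ∈ Finset.range T, θ ^ h (x * pos c k) < 2 * C₁ := by
              have h7 := lt_of_le_of_lt h5 (not_le.1 h2)
              exact (ENNReal.ofReal_lt_ofReal_iff (by positivity)).1 h7
            have h7 := h4 T le_rfl
            have hD0 : (0 : ℝ) ≤ D := Nat.cast_nonneg _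
            have h8 : (D : ℝ) * ∑ k ∈ Finset.range T, θ ^ h (x * pos c k) ≤ D * (2 * C₁) :=
              mul_le_mul_of_nonneg_left h6.le hD0
            change b (x * pos c T) ≤ R + D * (2 * C₁)
            linarith
      · exact Or.inr h1
    have h1 : (1 : ℝ≥0∞) ≤ mlaw S (V S G 0 x) + 2⁻¹ := by
      calc (1 : ℝ≥0∞) = mlaw S Set.univ := measure_univ.symm
        _ ≤ _ := measure_mono hcov
        _ ≤ _ := measure_union_le _ _
        _ ≤ (mlaw S (V S G 0 x) + 2⁻¹) + 0 :=
            add_le_add ((measure_union_le _ _).trans (add_le_add le_rfl hmark)) hosc0.le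
        _ = _ := add_zero _
    have h2 : (2 : ℝ≥0∞)⁻¹ ≤ mlaw S (V S G 0 x) := by
      have h3 : (2 : ℝ≥0∞)⁻¹ + 2⁻¹ ≤ mlaw S (V S G 0 x) + 2⁻¹ := by
        rw [ENNReal.inv_two_add_inv_two]
        exact h1
      exact (ENNReal.add_le_add_iff_right (by simp)).1 h3
    calc (1 : ℝ≥0∞) = 2 * 2⁻¹ := (ENNReal.mul_inv_cancel (by norm_num) (by norm_num)).symm
      _ ≤ _ := mul_le_mul_right h2 _
  -- the limit
  have hlim := ENNReal.tendsto_sum_nat_add
    (fun n => mlaw S {c : ℕ → S | 0 ≤ h (pos c n) ∧ h (pos c n) < (D : ℤ) ∧ b (pos c n) ≤ R'})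
    (hwin D R')
  have hlim2 := ENNReal.Tendsto.const_mul (a := 2) hlim (Or.inr (by norm_num))
  rw [mul_zero] at hlim2
  obtain ⟨k, hk⟩ := (hlim2.eventually (gt_mem_nhds (pos_iff_ne_zero.2 hε))).exists
  refine ⟨k, ?_⟩
  have h1 : {c : ℕ → S | ∃ n, k ≤ n ∧ pos c n ∈ MW H h b R} = V S (MW H h b R) k 1 := by
    ext c
    simp only [V, one_mul]
  rw [h1]
  refine (V_le _ G hkey k 1).trans (le_trans (mul_le_mul_right ?_ _) hk.le)
  have h3 : V S G k 1 ⊆ ⋃ n, {c : ℕ → S | 0 ≤ h (pos c (n + k)) ∧ h (pos c (n + k)) < (D : ℤ) ∧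
      b (pos c (n + k)) ≤ R'} := by
    rintro c ⟨n, hn, hc⟩
    rw [Set.mem_iUnion]
    refine ⟨n - k, ?_⟩
    rw [one_mul] at hc
    have : n - k + k = n := by omega
    rw [Set.mem_ofPred_eq, this]
    exact hc
  exact (measure_mono h3).trans (measure_iUnion_le _)

end Pool.Agent.W2helper24.FD
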